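import Pool.Agent.Work.MP_91aed7_am.Interface

/-!
# Stable tameness to all orders (MP_91aed7_ag), block J: laws for the filtration by the degree in `y`
-/

set_option autoImplicit false

namespace Pool.AM.J_

open MvPolynomial

variable {k : Type} [Field k] {n : ℕ}

theorem ydeg_add (a b : Vr n →₀ ℕ) : ydeg (a + b) = ydeg a + ydeg b := by
  unfold ydeg
  exact Finsupp.sum_add_index' (fun _ => by simp) (fun _ _ _ => by ring)

theorem ydeg_zero : ydeg (0 : Vr n →₀ ℕ) = 0 := by
  simp [ydeg]

theorem ydeg_single (v : Vr n) (e : ℕ) : ydeg (Finsupp.single v e) = e * wt v := by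
  unfold ydeg
  exact Finsupp.sum_single_index (by simp)

theorem mem_J {r : ℕ} {f : PS k n} : f ∈ J k n r ↔ ∀ m ∈ f.support, r ≤ ydeg m := Iff.rfl

theorem mul_mem {r s : ℕ} {f g : PS k n} (hf : f ∈ J k n r) (hg : g ∈ J k n s) :
    f * g ∈ J k n (r + s) := by
  classical
  intro m hm
  have h := MvPolynomial.support_mul f g hm
  obtain ⟨a, ha, b, hb, rfl⟩ := Finset.mem_add.1 h
  rw [ydeg_add]
  exact add_le_add (hf a ha) (hg b hb)

theorem monomial_mem {r : ℕ} (m : Vr n →₀ ℕ) (c : k) (h : r ≤ ydeg m) :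
    (monomial m c : PS k n) ∈ J k n r := by
  intro m' hm'
  have h' := MvPolynomial.support_monomial_subset hm'
  rw [Finset.mem_singleton] at h'
  rw [h']
  exact h

theorem X_mem (v : Vr n) : (X v : PS k n) ∈ J k n (wt v) := by
  have h : (X v : PS k n) = monomial (Finsupp.single v 1) 1 := rfl
  rw [h]
  refine monomial_mem _ _ ?_
  rw [ydeg_single, one_mul]

theorem mono {r s : ℕ} (h : r ≤ s) : J k n s ≤ J k n r :=
  fun _ hf m hm => h.trans (hf m hm)

theorem zero_mem' (f : PS k n) : f ∈ J k n 0 := fun _ _ => Nat.zero_le _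

/-- membership for linear maps can be checked on monomials -/
theorem lin_mem (g : PS k n →ₗ[k] PS k n) (r t : ℕ)
    (h : ∀ m : Vr n →₀ ℕ, r ≤ ydeg m → g (monomial m 1) ∈ J k n t) {f : PS k n}
    (hf : f ∈ J k n r) : g f ∈ J k n t := by
  rw [f.as_sum, map_sum]
  refine Submodule.sum_mem _ fun m hm => ?_
  have h1 : (monomial m (coeff m f) : PS k n) = coeff m f • monomial m 1 := by
    rw [smul_monomial, smul_eq_mul, mul_one]
  rw [h1, map_smul]
  exact Submodule.smul_mem _ _ (h m (hf m hm))

theorem mon_induction {P : (Vr n →₀ ℕ) → Prop} (h0 : P 0) (h1 : ∀ v, P (Finsupp.single v 1))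
    (hadd : ∀ a b, P a → P b → P (a + b)) (m : Vr n →₀ ℕ) : P m := by
  induction m using Finsupp.induction_linear with
  | zero => exact h0
  | add a b ha hb => exact hadd a b ha hb
  | single v e =>
    induction e with
    | zero => rw [Finsupp.single_zero]; exact h0
    | succ e ih => rw [Finsupp.single_add]; exact hadd _ _ ih (h1 v)

theorem mon_zero : (monomial (0 : Vr n →₀ ℕ) (1 : k) : PS k n) = 1 := rfl

theorem mon_one (v : Vr n) : (monomial (Finsupp.single v 1) (1 : k) : PS k n) = X v := rfl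

theorem mon_add (a b : Vr n →₀ ℕ) :
    (monomial (a + b) (1 : k) : PS k n) = monomial a 1 * monomial b 1 := by
  rw [monomial_mul, one_mul]

theorem pd' {r : ℕ} (v : Vr n) {f : PS k n} (hf : f ∈ J k n r) :
    pderiv v f ∈ J k n (r - wt v) := by
  refine lin_mem (pderiv v : Derivation k (PS k n) (PS k n)).toLinearMap r (r - wt v) ?_ hf
  intro m hm
  change pderiv v (monomial m (1 : k)) ∈ _
  rw [pderiv_monomial]
  by_cases h0 : m v = 0
  · rw [h0]
    simp
  · refine monomial_mem _ _ ?_
    have h1 : m = (m - Finsupp.single v 1) + Finsupp.single v 1 := by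
      rw [tsub_add_cancel_of_le]
      rw [Finsupp.single_le_iff]
      omega
    have h2 : ydeg m = ydeg (m - Finsupp.single v 1) + wt v := by
      conv_lhs => rw [h1]
      rw [ydeg_add, ydeg_single, one_mul]
    omega

theorem pd {r : ℕ} (v : Vr n) {f : PS k n} (hf : f ∈ J k n (r + wt v)) :
    pderiv v f ∈ J k n r := by
  have h := pd' v hf
  rwa [Nat.add_sub_cancel] at h

theorem const {c : k} (h : (C c : PS k n) ∈ J k n 1) : c = 0 := by
  by_contra hc
  have h0 : (0 : Vr n →₀ ℕ) ∈ (C c : PS k n).support := by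
    rw [mem_support_iff, coeff_zero_C]
    exact hc
  have h1 := h 0 h0
  rw [ydeg_zero] at h1
  omega

theorem pres_mon (α : PS k n →ₐ[k] PS k n) (hα : ∀ v, α (X v) ∈ J k n (wt v))
    (m : Vr n →₀ ℕ) : α (monomial m 1) ∈ J k n (ydeg m) := by
  induction m using mon_induction with
  | h0 => rw [ydeg_zero]; exact zero_mem' _
  | h1 v => rw [ydeg_single, one_mul, mon_one]; exact hα v
  | hadd a b ha hb =>
    rw [ydeg_add, mon_add, map_mul]
    exact mul_mem ha hb

theorem pres (α : PS k n →ₐ[k] PS k n) (hα : ∀ v, α (X v) ∈ J k n (wt v)) {r : ℕ} {f : PS k n}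
    (hf : f ∈ J k n r) : α f ∈ J k n r := by
  refine lin_mem α.toLinearMap r r ?_ hf
  intro m hm
  exact mono hm (pres_mon α hα m)

theorem diff_mon (α β : PS k n →ₐ[k] PS k n) (s : ℕ) (hα : ∀ v, α (X v) ∈ J k n (wt v))
    (hβ : ∀ v, β (X v) ∈ J k n (wt v)) (h : ∀ v, α (X v) - β (X v) ∈ J k n (s + wt v))
    (m : Vr n →₀ ℕ) : α (monomial m 1) - β (monomial m 1) ∈ J k n (ydeg m + s) := by
  induction m using mon_induction with
  | h0 =>
    rw [mon_zero, map_one, map_one, sub_self]
    exact Submodule.zero_mem _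
  | h1 v =>
    rw [ydeg_single, one_mul, mon_one, add_comm]
    exact h v
  | hadd a b ha hb =>
    have h1 : α (monomial (a + b) 1) - β (monomial (a + b) 1)
        = α (monomial a 1) * (α (monomial b 1) - β (monomial b 1))
          + (α (monomial a 1) - β (monomial a 1)) * β (monomial b 1) := by
      rw [mon_add, map_mul, map_mul]
      ring
    rw [h1, ydeg_add]
    refine Submodule.add_mem _ ?_ ?_
    · have h2 := mul_mem (pres_mon α hα a) hb
      have h3 : ydeg a + (ydeg b + s) = ydeg a + ydeg b + s := by ring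
      rwa [h3] at h2
    · have h2 := mul_mem ha (pres_mon β hβ b)
      have h3 : ydeg a + s + ydeg b = ydeg a + ydeg b + s := by ring
      rwa [h3] at h2

theorem diff (α β : PS k n →ₐ[k] PS k n) (s : ℕ) (hα : ∀ v, α (X v) ∈ J k n (wt v))
    (hβ : ∀ v, β (X v) ∈ J k n (wt v)) (h : ∀ v, α (X v) - β (X v) ∈ J k n (s + wt v))
    {r : ℕ} {f : PS k n} (hf : f ∈ J k n r) : α f - β f ∈ J k n (r + s) := by
  let g : PS k n →ₗ[k] PS k n := α.toLinearMap - β.toLinearMap
  have hg : ∀ h : PS k n, g h = α h - β h := fun _ => rfl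
  have h1 := lin_mem g r (r + s) (fun m hm => ?_) hf
  · rwa [hg] at h1
  · rw [hg]
    exact mono (by omega) (diff_mon α β s hα hβ h m)

theorem taylor_mon (α : PS k n →ₐ[k] PS k n) (δ : Vr n → PS k n) (s : ℕ)
    (hα : ∀ v, α (X v) = X v + δ v) (hδ : ∀ v, δ v ∈ J k n (s + wt v)) (m : Vr n →₀ ℕ) :
    α (monomial m 1) - monomial m 1 - mkDerivation k δ (monomial m 1)
      ∈ J k n (ydeg m + 2 * s) := by
  have hid : ∀ v : Vr n, (AlgHom.id k (PS k n)) (X v) ∈ J k n (wt v) := fun v => X_mem v
  have hα' : ∀ v, α (X v) ∈ J k n (wt v) := by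
    intro v
    rw [hα v]
    exact Submodule.add_mem _ (X_mem v) (mono (by omega) (hδ v))
  have hd : ∀ v, α (X v) - (AlgHom.id k (PS k n)) (X v) ∈ J k n (s + wt v) := by
    intro v
    rw [hα v]
    simpa using hδ v
  induction m using mon_induction with
  | h0 =>
    have h1 : α (monomial 0 1) - monomial 0 1 - mkDerivation k δ (monomial 0 1)
        = (0 : PS k n) := by
      rw [mon_zero, map_one, sub_self, zero_sub, Derivation.map_one_eq_zero, neg_zero]
    rw [h1]
    exact Submodule.zero_mem _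
  | h1 v =>
    have h1 : α (monomial (Finsupp.single v 1) 1) - monomial (Finsupp.single v 1) 1
        - mkDerivation k δ (monomial (Finsupp.single v 1) 1) = (0 : PS k n) := by
      rw [mon_one, mkDerivation_X, hα v]
      ring
    rw [h1]
    exact Submodule.zero_mem _
  | hadd a b ha hb =>
    have h1 : α (monomial (a + b) 1) - monomial (a + b) 1
        - mkDerivation k δ (monomial (a + b) 1)
        = monomial a 1 * (α (monomial b 1) - monomial b 1 - mkDerivation k δ (monomial b 1))
          + (α (monomial a 1) - monomial a 1 - mkDerivation k δ (monomial a 1)) * monomial b 1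
          + (α (monomial a 1) - monomial a 1) * (α (monomial b 1) - monomial b 1) := by
      rw [mon_add, map_mul, Derivation.leibniz, smul_eq_mul, smul_eq_mul]
      ring
    have hA := diff_mon α (AlgHom.id k (PS k n)) s hα' hid hd a
    have hB := diff_mon α (AlgHom.id k (PS k n)) s hα' hid hd b
    rw [AlgHom.id_apply] at hA hB
    rw [h1, ydeg_add]
    refine Submodule.add_mem _ (Submodule.add_mem _ ?_ ?_) ?_
    · exact mono (by omega) (mul_mem (monomial_mem a (1 : k) le_rfl) hb)
    · exact mono (by omega) (mul_mem ha (monomial_mem b (1 : k) le_rfl))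
    · exact mono (by omega) (mul_mem hA hB)

theorem taylor (α : PS k n →ₐ[k] PS k n) (δ : Vr n → PS k n) (s : ℕ)
    (hα : ∀ v, α (X v) = X v + δ v) (hδ : ∀ v, δ v ∈ J k n (s + wt v)) {r : ℕ} {f : PS k n}
    (hf : f ∈ J k n r) : α f - f - mkDerivation k δ f ∈ J k n (r + 2 * s) := by
  let g : PS k n →ₗ[k] PS k n := α.toLinearMap - LinearMap.id
    - ((mkDerivation k δ : Derivation k (PS k n) (PS k n)) : PS k n →ₗ[k] PS k n)
  have hg : ∀ h : PS k n, g h = α h - h - mkDerivation k δ h := fun _ => rfl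
  have h1 := lin_mem g r (r + 2 * s) (fun m hm => ?_) hf
  · rwa [hg] at h1
  · rw [hg]
    exact mono (by omega) (taylor_mon α δ s hα hδ m)

end Pool.AM.J_

theorem Pool.AM.stmt_J : Pool.AM.Stmt_J := fun _ _ _ =>
  { mul := fun hf hg => Pool.AM.J_.mul_mem hf hg
    X_mem := fun v => Pool.AM.J_.X_mem v
    mono := fun h => Pool.AM.J_.mono h
    zero := fun f => Pool.AM.J_.zero_mem' f
    pd := fun v _ hf => Pool.AM.J_.pd v hf
    pd' := fun v _ hf => Pool.AM.J_.pd' v hf
    const := fun h => Pool.AM.J_.const h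
    pres := fun α hα _ _ hf => Pool.AM.J_.pres α hα hf
    diff := fun α β s hα hβ h _ _ hf => Pool.AM.J_.diff α β s hα hβ h hf
    taylor := fun α δ s hα hδ _ _ hf => Pool.AM.J_.taylor α δ s hα hδ hf }
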