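import Pool.Agent.Work.MP_91aed7_am.Interface

/-!
# Stable tameness to all orders (MP_91aed7_ag), block SE: laws for stably elementary matrices
-/

set_option autoImplicit false
set_option linter.unusedSectionVars false

namespace Pool.AM.SE_

open Matrix

section

variable {ι κ μ ι' κ' : Type} [Fintype ι] [DecidableEq ι] [Fintype κ] [DecidableEq κ]
  [Fintype μ] [DecidableEq μ] [Fintype ι'] [DecidableEq ι'] [Fintype κ'] [DecidableEq κ']
  {A : Type} [CommRing A]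

theorem reindex_sumCongr (e : ι ≃ ι') (e' : κ ≃ κ') (M : Matrix ι ι A) :
    Matrix.reindex (Equiv.sumCongr e e') (Equiv.sumCongr e e')
      (fromBlocks M 0 0 (1 : Matrix κ κ A))
      = fromBlocks (Matrix.reindex e e M) 0 0 (1 : Matrix κ' κ' A) := by
  ext i j
  rcases i with i | i <;> rcases j with j | j <;>
    simp [Matrix.reindex_apply, Matrix.submatrix_apply, Matrix.one_apply]

theorem reindex_sumAssoc (M : Matrix ι ι A) :
    Matrix.reindex (Equiv.sumAssoc ι κ μ) (Equiv.sumAssoc ι κ μ)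
      (fromBlocks (fromBlocks M 0 0 (1 : Matrix κ κ A)) 0 0 (1 : Matrix μ μ A))
      = fromBlocks M 0 0 (1 : Matrix (κ ⊕ μ) (κ ⊕ μ) A) := by
  ext i j
  rcases i with i | i | i <;> rcases j with j | j | j <;>
    simp [Matrix.reindex_apply, Matrix.submatrix_apply, Matrix.one_apply]

theorem reindex_sumAssoc_symm (M : Matrix ι ι A) :
    Matrix.reindex (Equiv.sumAssoc ι κ μ).symm (Equiv.sumAssoc ι κ μ).symm
      (fromBlocks M 0 0 (1 : Matrix (κ ⊕ μ) (κ ⊕ μ) A))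
      = fromBlocks (fromBlocks M 0 0 (1 : Matrix κ κ A)) 0 0 (1 : Matrix μ μ A) := by
  rw [← reindex_sumAssoc (κ := κ) (μ := μ) M]
  ext i j
  simp

theorem reindex_sumComm (N : Matrix κ κ A) :
    Matrix.reindex (Equiv.sumComm ι κ) (Equiv.sumComm ι κ)
      (fromBlocks (1 : Matrix ι ι A) 0 0 N)
      = fromBlocks N 0 0 (1 : Matrix ι ι A) := by
  ext i j
  rcases i with i | i <;> rcases j with j | j <;>
    simp [Matrix.reindex_apply, Matrix.submatrix_apply, Matrix.one_apply]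

end

variable (h1 : Stmt_EL1)
include h1

section

variable {ι κ μ ι' κ' : Type} [Fintype ι] [DecidableEq ι] [Fintype κ] [DecidableEq κ]
  [Fintype μ] [DecidableEq μ] [Fintype ι'] [DecidableEq ι'] [Fintype κ'] [DecidableEq κ']
  {A : Type} [CommRing A]

theorem el_reindex (e : ι ≃ κ) {M : Matrix ι ι A} (hM : M ∈ EL ι A) :
    Matrix.reindex e e M ∈ EL κ A := (h1 ι κ A).1 e M hM

theorem el_stab (κ : Type) [Fintype κ] [DecidableEq κ] {M : Matrix ι ι A} (hM : M ∈ EL ι A) :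
    fromBlocks M 0 0 (1 : Matrix κ κ A) ∈ EL (ι ⊕ κ) A := (h1 ι κ A).2.1 M hM

theorem el_U (B : Matrix ι κ A) :
    fromBlocks (1 : Matrix ι ι A) B 0 (1 : Matrix κ κ A) ∈ EL (ι ⊕ κ) A :=
  (h1 ι κ A).2.2.2.1 B

theorem el_L (C : Matrix κ ι A) :
    fromBlocks (1 : Matrix ι ι A) 0 C (1 : Matrix κ κ A) ∈ EL (ι ⊕ κ) A :=
  (h1 ι κ A).2.2.2.2.1 C

theorem el_det {M : Matrix ι ι A} (hM : M ∈ EL ι A) : M.det = 1 :=
  ((h1 ι ι A).2.2.2.2.2.1 M hM).1

theorem el_inv {M : Matrix ι ι A} (hM : M ∈ EL ι A) :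
    ∃ M' ∈ EL ι A, M * M' = 1 ∧ M' * M = 1 :=
  ((h1 ι ι A).2.2.2.2.2.1 M hM).2

theorem el_map {B : Type} [CommRing B] (f : A →+* B) {M : Matrix ι ι A} (hM : M ∈ EL ι A) :
    M.map f ∈ EL ι B := (h1 ι ι A).2.2.2.2.2.2 B f M hM

/-- the size of the identity block does not matter -/
theorem se_of (κ : Type) [Fintype κ] [DecidableEq κ] {M : Matrix ι ι A}
    (h : fromBlocks M 0 0 (1 : Matrix κ κ A) ∈ EL (ι ⊕ κ) A) : SE M := by
  refine ⟨Fintype.card κ, ?_⟩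
  have h2 := el_reindex h1 (Equiv.sumCongr (Equiv.refl ι) (Fintype.equivFin κ)) h
  rw [reindex_sumCongr] at h2
  simpa using h2

theorem enlarge_right (κ μ : Type) [Fintype κ] [DecidableEq κ] [Fintype μ] [DecidableEq μ]
    {M : Matrix ι ι A} (h : fromBlocks M 0 0 (1 : Matrix κ κ A) ∈ EL (ι ⊕ κ) A) :
    fromBlocks M 0 0 (1 : Matrix (κ ⊕ μ) (κ ⊕ μ) A) ∈ EL (ι ⊕ (κ ⊕ μ)) A := by
  have h2 := el_reindex h1 (Equiv.sumAssoc ι κ μ) (el_stab h1 μ h)
  rwa [reindex_sumAssoc] at h2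

theorem enlarge_left (κ μ : Type) [Fintype κ] [DecidableEq κ] [Fintype μ] [DecidableEq μ]
    {M : Matrix ι ι A} (h : fromBlocks M 0 0 (1 : Matrix μ μ A) ∈ EL (ι ⊕ μ) A) :
    fromBlocks M 0 0 (1 : Matrix (κ ⊕ μ) (κ ⊕ μ) A) ∈ EL (ι ⊕ (κ ⊕ μ)) A := by
  have h2 := el_reindex h1 (Equiv.sumCongr (Equiv.refl ι) (Equiv.sumComm μ κ))
    (enlarge_right h1 μ κ h)
  rw [reindex_sumCongr] at h2
  simpa using h2

theorem se_of_el {M : Matrix ι ι A} (hM : M ∈ EL ι A) : SE M := ⟨0, el_stab h1 (Fin 0) hM⟩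

theorem se_one : SE (1 : Matrix ι ι A) := se_of_el h1 (Submonoid.one_mem _)

theorem se_reindex (e : ι ≃ κ) {M : Matrix ι ι A} (hM : SE M) :
    SE (Matrix.reindex e e M) := by
  obtain ⟨l, hl⟩ := hM
  refine ⟨l, ?_⟩
  have h2 := el_reindex h1 (Equiv.sumCongr e (Equiv.refl (Fin l))) hl
  rwa [reindex_sumCongr] at h2

theorem se_stab (κ : Type) [Fintype κ] [DecidableEq κ] {M : Matrix ι ι A} :
    SE (fromBlocks M 0 0 (1 : Matrix κ κ A)) ↔ SE M := by
  constructor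
  · rintro ⟨l, hl⟩
    have h2 := el_reindex h1 (Equiv.sumAssoc ι κ (Fin l)) hl
    rw [reindex_sumAssoc] at h2
    exact se_of h1 (κ ⊕ Fin l) h2
  · rintro ⟨l, hl⟩
    have h2 := enlarge_left h1 κ (Fin l) hl
    have h3 := el_reindex h1 (Equiv.sumAssoc ι κ (Fin l)).symm h2
    rw [reindex_sumAssoc_symm] at h3
    exact ⟨l, h3⟩

theorem se_stab' (ι : Type) [Fintype ι] [DecidableEq ι] {N : Matrix κ κ A} :
    SE (fromBlocks (1 : Matrix ι ι A) 0 0 N) ↔ SE N := by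
  rw [← se_stab h1 ι (M := N)]
  constructor
  · intro h
    have h2 := se_reindex h1 (Equiv.sumComm ι κ) h
    rwa [reindex_sumComm] at h2
  · intro h
    have h2 := se_reindex h1 (Equiv.sumComm κ ι) h
    rw [← reindex_sumComm (ι := ι) (κ := κ)] at h2
    have h3 : Matrix.reindex (Equiv.sumComm κ ι) (Equiv.sumComm κ ι)
        (Matrix.reindex (Equiv.sumComm ι κ) (Equiv.sumComm ι κ)
          (fromBlocks (1 : Matrix ι ι A) 0 0 N)) = fromBlocks (1 : Matrix ι ι A) 0 0 N := by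
      ext i j
      rcases i with i | i <;> rcases j with j | j <;>
        simp [Matrix.reindex_apply, Matrix.submatrix_apply]
    rwa [h3] at h2

theorem se_mul {M N : Matrix ι ι A} (hM : SE M) (hN : SE N) : SE (M * N) := by
  obtain ⟨l, hl⟩ := hM
  obtain ⟨l', hl'⟩ := hN
  refine se_of h1 (Fin l ⊕ Fin l') ?_
  have h2 := Submonoid.mul_mem _ (enlarge_right h1 (Fin l) (Fin l') hl)
    (enlarge_left h1 (Fin l) (Fin l') hl')
  rw [fromBlocks_multiply] at h2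
  simpa using h2

theorem se_inv {M : Matrix ι ι A} (hM : SE M) : ∃ M', SE M' ∧ M * M' = 1 ∧ M' * M = 1 := by
  obtain ⟨l, hl⟩ := hM
  obtain ⟨W, hW, hW1, hW2⟩ := el_inv h1 hl
  obtain ⟨a, b, c, d, rfl⟩ : ∃ a b c d, W = fromBlocks a b c d :=
    ⟨W.toBlocks₁₁, W.toBlocks₁₂, W.toBlocks₂₁, W.toBlocks₂₂, (fromBlocks_toBlocks W).symm⟩
  rw [fromBlocks_multiply, ← fromBlocks_one, fromBlocks_inj] at hW1 hW2
  obtain ⟨e1, e2, e3, e4⟩ := hW1
  obtain ⟨f1, f2, f3, f4⟩ := hW2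
  simp only [Matrix.zero_mul, Matrix.mul_zero, Matrix.one_mul, Matrix.mul_one, add_zero,
    zero_add] at e1 e2 e3 e4 f1 f2 f3 f4
  subst e3 e4 f2
  exact ⟨a, ⟨l, hW⟩, e1, f1⟩

theorem se_mul_left_iff {P M : Matrix ι ι A} (hP : SE P) : SE (P * M) ↔ SE M := by
  constructor
  · intro h
    obtain ⟨Q, hQ, -, hQ2⟩ := se_inv h1 hP
    have h2 := se_mul h1 hQ h
    rwa [← Matrix.mul_assoc, hQ2, Matrix.one_mul] at h2
  · exact fun h => se_mul h1 hP h

theorem se_mul_right_iff {P M : Matrix ι ι A} (hP : SE P) : SE (M * P) ↔ SE M := by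
  constructor
  · intro h
    obtain ⟨Q, hQ, hQ1, -⟩ := se_inv h1 hP
    have h2 := se_mul h1 h hQ
    rwa [Matrix.mul_assoc, hQ1, Matrix.mul_one] at h2
  · exact fun h => se_mul h1 h hP

theorem se_tri_left {M : Matrix ι ι A} (Y : Matrix ι κ A) {N : Matrix κ κ A} (hM : SE M) :
    SE (fromBlocks M Y 0 N) ↔ SE N := by
  have h2 : fromBlocks M Y 0 N = fromBlocks (1 : Matrix ι ι A) 0 0 N
      * (fromBlocks (1 : Matrix ι ι A) Y 0 (1 : Matrix κ κ A)
        * fromBlocks M 0 0 (1 : Matrix κ κ A)) := by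
    rw [fromBlocks_multiply, fromBlocks_multiply]
    simp
  rw [h2, se_mul_right_iff h1 (se_mul h1 (se_of_el h1 (el_U h1 Y)) ((se_stab h1 κ).2 hM)),
    se_stab' h1 ι]

theorem se_tri_right {M : Matrix ι ι A} (Y : Matrix ι κ A) {N : Matrix κ κ A} (hN : SE N) :
    SE (fromBlocks M Y 0 N) ↔ SE M := by
  have h2 : fromBlocks M Y 0 N = (fromBlocks (1 : Matrix ι ι A) 0 0 N
      * fromBlocks (1 : Matrix ι ι A) Y 0 (1 : Matrix κ κ A))
        * fromBlocks M 0 0 (1 : Matrix κ κ A) := by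
    rw [fromBlocks_multiply, fromBlocks_multiply]
    simp
  rw [h2, se_mul_left_iff h1 (se_mul h1 ((se_stab' h1 ι).2 hN) (se_of_el h1 (el_U h1 Y))),
    se_stab h1 κ]

theorem se_conj (h2 : Stmt_EL2) {g h M : Matrix ι ι A} (hgh : g * h = 1) (hM : SE M) :
    SE (g * M * h) := by
  have hhg : h * g = 1 := mul_eq_one_comm.1 hgh
  rw [← se_stab h1 ι]
  have h3 : fromBlocks (g * M * h) 0 0 (1 : Matrix ι ι A)
      = fromBlocks g 0 0 h * (fromBlocks M 0 0 (1 : Matrix ι ι A) * fromBlocks h 0 0 g) := by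
    rw [fromBlocks_multiply, fromBlocks_multiply]
    simp [hhg, Matrix.mul_assoc]
  rw [h3, se_mul_left_iff h1 (se_of_el h1 (h2 ι A g h hgh)),
    se_mul_right_iff h1 (se_of_el h1 (h2 ι A h g hhg)), se_stab h1 ι]
  exact hM

theorem se_det {M : Matrix ι ι A} (hM : SE M) : M.det = 1 := by
  obtain ⟨l, hl⟩ := hM
  have h2 := el_det h1 hl
  rwa [det_fromBlocks_zero₂₁, det_one, mul_one] at h2

theorem se_map {B : Type} [CommRing B] (f : A →+* B) {M : Matrix ι ι A} (hM : SE M) :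
    SE (M.map f) := by
  obtain ⟨l, hl⟩ := hM
  refine ⟨l, ?_⟩
  have h2 := el_map h1 f hl
  rw [fromBlocks_map] at h2
  simpa using h2

theorem se_swap (B : Matrix ι κ A) (C : Matrix κ ι A) (h : SE (1 + B * C)) :
    SE (1 + C * B) := by
  have h2 : SE (fromBlocks (1 + B * C) 0 C (1 : Matrix κ κ A)) := by
    have h3 : fromBlocks (1 + B * C) 0 C (1 : Matrix κ κ A)
        = fromBlocks (1 + B * C) 0 0 (1 : Matrix κ κ A)
          * fromBlocks (1 : Matrix ι ι A) 0 C (1 : Matrix κ κ A) := by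
      rw [fromBlocks_multiply]
      simp
    rw [h3]
    exact se_mul h1 ((se_stab h1 κ).2 h) (se_of_el h1 (el_L h1 C))
  have h3 : fromBlocks (1 : Matrix ι ι A) (-B) 0 (1 : Matrix κ κ A)
        * fromBlocks (1 + B * C) 0 C (1 : Matrix κ κ A)
      = fromBlocks (1 : Matrix ι ι A) 0 C (1 : Matrix κ κ A)
        * fromBlocks (1 : Matrix ι ι A) (-B) 0 (1 + C * B) := by
    rw [fromBlocks_multiply, fromBlocks_multiply]
    simp
  have h4 := (se_mul_left_iff h1 (se_of_el h1 (el_U h1 (-B)))).2 h2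
  rw [h3, se_mul_left_iff h1 (se_of_el h1 (el_L h1 C)), se_tri_left h1 (-B) (se_one h1)] at h4
  exact h4

end

end Pool.AM.SE_

theorem Pool.AM.stmt_SE (h1 : Pool.AM.Stmt_EL1) (h2 : Pool.AM.Stmt_EL2) : Pool.AM.Stmt_SE :=
  { reindex := fun e _ hM => Pool.AM.SE_.se_reindex h1 e hM
    stab := fun κ => Pool.AM.SE_.se_stab h1 κ
    of_EL := fun hM => Pool.AM.SE_.se_of_el h1 hM
    mul := fun hM hN => Pool.AM.SE_.se_mul h1 hM hN
    EL_mul := fun hE => Pool.AM.SE_.se_mul_left_iff h1 (Pool.AM.SE_.se_of_el h1 hE)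
    mul_EL := fun hE => Pool.AM.SE_.se_mul_right_iff h1 (Pool.AM.SE_.se_of_el h1 hE)
    conj := fun hgh hM => Pool.AM.SE_.se_conj h1 h2 hgh hM
    tri_left := fun Y _ hM => Pool.AM.SE_.se_tri_left h1 Y hM
    tri_right := fun Y _ hN => Pool.AM.SE_.se_tri_right h1 Y hN
    det := fun hM => Pool.AM.SE_.se_det h1 hM
    map := fun f _ hM => Pool.AM.SE_.se_map h1 f hM
    swap := fun B C h => Pool.AM.SE_.se_swap h1 B C h }
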